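import Pool.Agent.Helper38.Weiss.Api

open Set Filter Topology MeasureTheory Pool.Agent.Helper38.Weiss

namespace Pool.Agent.Helper97.Weiss

/-- Two packings with the same covered set are equal. -/
theorem packing_eq {L T : ℕ} (hL : 0 < L) {A B : Finset ℕ} (hA : Packing L T A)
    (hB : Packing L T B)
    (h : ∀ t < T, (∃ a ∈ A, a ≤ t ∧ t < a + L) ↔ (∃ a ∈ B, a ≤ t ∧ t < a + L)) : A = B := by
  have key : ∀ a : ℕ, a ∈ A ↔ a ∈ B := by
    intro a
    induction a using Nat.strong_induction_on with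
    | _ a ih =>
      constructor
      · intro ha
        have haT : a < T := by have := hA.1 a ha; omega
        obtain ⟨b, hb, hba, hab⟩ := (h a haT).1 ⟨a, ha, le_refl _, by omega⟩
        rcases hba.lt_or_eq with hlt | rfl
        · have hbA := (ih b hlt).2 hb
          have := hA.2 b hbA a ha hlt
          omega
        · exact hb
      · intro ha
        have haT : a < T := by have := hB.1 a ha; omega
        obtain ⟨b, hb, hba, hab⟩ := (h a haT).2 ⟨a, ha, le_refl _, by omega⟩
        rcases hba.lt_or_eq with hlt | rfl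
        · have hbA := (ih b hlt).1 hb
          have := hB.2 b hbA a ha hlt
          omega
        · exact hb
  exact Finset.ext key

theorem packing_card {L T : ℕ} {A : Finset ℕ} (hA : Packing L T A) :
    (A.biUnion (fun a => Finset.Ico a (a + L))).card = A.card * L ∧
      (A.biUnion (fun a => Finset.Ico a (a + L))) ⊆ Finset.range T := by
  constructor
  · rw [Finset.card_biUnion]
    · simp
    · intro a ha b hb hne
      show Disjoint (Finset.Ico a (a + L)) (Finset.Ico b (b + L))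
      rw [Finset.disjoint_left]
      intro x hx hx'
      rw [Finset.mem_Ico] at hx hx'
      rcases lt_or_gt_of_ne hne with h | h
      · have := hA.2 a ha b hb h
        omega
      · have := hA.2 b hb a ha h
        omega
  · intro x hx
    rw [Finset.mem_biUnion] at hx
    obtain ⟨a, ha, hx⟩ := hx
    rw [Finset.mem_Ico] at hx
    have := hA.1 a ha
    rw [Finset.mem_range]
    omega

/-- The sum of the word counts. -/
theorem sum_cnt {n L : ℕ} (A : Finset ℕ) (ξ : ℕ → Fin n) :
    ∑ w, cnt id L A ξ w = A.card := by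
  classical
  unfold cnt
  rw [Finset.card_eq_sum_card_fiberwise (f := fun a => word id L ξ a) (t := Finset.univ)
    (fun x _ => Finset.mem_coe.2 (Finset.mem_univ _))]

/-- Filling up a packing to a function of type `τ`. -/
theorem exists_fill {n L : ℕ} {ι : Type*} [Fintype ι] [DecidableEq ι]
    (τ : (Fin L → Fin n) → ℕ) (hτ : ∑ w, τ w = Fintype.card ι) (A : Finset ℕ)
    (c : (Fin L → Fin n) → ℕ) (hc : ∀ w, c w ≤ τ w) (hcA : ∑ w, c w = A.card) :
    ∃ F : (ℕ → Fin n) → ι → (Fin L → Fin n),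
      (∀ ξ, (∀ w, cnt id L A ξ w = c w) →
        ∀ b, (Finset.univ.filter (fun i => F ξ i = b)).card = τ b) ∧
      (∀ ξ ζ, ∀ a ∈ A, ∃ i, F ξ i = word id L ξ a ∧ F ζ i = word id L ζ a) := by
  classical
  have hcard : Fintype.card ι = Fintype.card (A ⊕ (Σ w : Fin L → Fin n, Fin (τ w - c w))) := by
    rw [Fintype.card_sum, Fintype.card_coe, Fintype.card_sigma, ← hcA, ← hτ,
      ← Finset.sum_add_distrib]
    refine Finset.sum_congr rfl (fun w _ => ?_)
    rw [Fintype.card_fin]
    have := hc w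
    omega
  let E := Fintype.equivOfCardEq hcard
  refine ⟨fun ξ i => Sum.elim (fun a : A => word id L ξ a) (fun x => x.1) (E i), ?_, ?_⟩
  · intro ξ hξ b
    have h1 : (Finset.univ.filter (fun i => Sum.elim (fun a : A => word id L ξ a)
        (fun x : (Σ w : Fin L → Fin n, Fin (τ w - c w)) => x.1) (E i) = b)).card =
        (Finset.univ.filter (fun y : A ⊕ (Σ w : Fin L → Fin n, Fin (τ w - c w)) =>
          Sum.elim (fun a : A => word id L ξ a) (fun x => x.1) y = b)).card := by
      refine Finset.card_bij (fun i _ => E i) ?_ ?_ ?_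
      · intro i hi
        rw [Finset.mem_filter] at hi ⊢
        exact ⟨Finset.mem_univ _, hi.2⟩
      · intro i _ j _ hij
        exact E.injective hij
      · intro y hy
        rw [Finset.mem_filter] at hy
        refine ⟨E.symm y, ?_, by simp⟩
        rw [Finset.mem_filter]
        refine ⟨Finset.mem_univ _, ?_⟩
        simpa using hy.2
    show (Finset.univ.filter (fun i => Sum.elim (fun a : A => word id L ξ a)
        (fun x : (Σ w : Fin L → Fin n, Fin (τ w - c w)) => x.1) (E i) = b)).card = τ b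
    rw [h1]
    have h2 : (Finset.univ.filter (fun y : A ⊕ (Σ w : Fin L → Fin n, Fin (τ w - c w)) =>
          Sum.elim (fun a : A => word id L ξ a) (fun x => x.1) y = b)) =
        (Finset.univ.filter (fun a : A => word id L ξ a = b)).disjSum
          (Finset.univ.filter (fun x : (Σ w : Fin L → Fin n, Fin (τ w - c w)) => x.1 = b)) := by
      ext y
      rcases y with a | x
      · simp
      · simp
    rw [h2, Finset.card_disjSum]
    have h3 : (Finset.univ.filter (fun a : A => word id L ξ a = b)).card = c b := by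
      rw [← hξ b]
      unfold cnt
      refine Finset.card_bij (fun a _ => (a : ℕ)) ?_ ?_ ?_
      · intro a ha
        rw [Finset.mem_filter] at ha ⊢
        exact ⟨a.2, ha.2⟩
      · intro a _ a' _ h
        exact Subtype.ext h
      · intro a ha
        rw [Finset.mem_filter] at ha
        refine ⟨⟨a, ha.1⟩, ?_, rfl⟩
        rw [Finset.mem_filter]
        exact ⟨Finset.mem_univ _, ha.2⟩
    have h4 : (Finset.univ.filter
        (fun x : (Σ w : Fin L → Fin n, Fin (τ w - c w)) => x.1 = b)).card = τ b - c b := by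
      have h5 : (Finset.univ.filter
          (fun x : (Σ w : Fin L → Fin n, Fin (τ w - c w)) => x.1 = b)) =
          (Finset.univ : Finset (Fin (τ b - c b))).map
            ⟨fun j => (⟨b, j⟩ : Σ w : Fin L → Fin n, Fin (τ w - c w)), fun j j' h => by
              simpa using h⟩ := by
        ext ⟨w, j⟩
        simp only [Finset.mem_filter, Finset.mem_univ, true_and, Finset.mem_map]
        constructor
        · intro h
          subst h
          exact ⟨j, rfl⟩
        · rintro ⟨j', h⟩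
          exact (congrArg Sigma.fst h).symm
      rw [h5, Finset.card_map, Finset.card_univ, Fintype.card_fin]
    rw [h3, h4]
    have := hc b
    omega
  · intro ξ ζ a ha
    refine ⟨E.symm (Sum.inl ⟨a, ha⟩), ?_, ?_⟩ <;> simp

/-- Thinning a packing. -/
theorem exists_thin {n L T : ℕ} (q : (Fin L → Fin n) → ℝ) (hq1 : ∑ w, q w = 1)
    (τ : (Fin L → Fin n) → ℕ) (d₁ d₂ : ℝ)
    (hd₁ : ∑ w, |(L : ℝ) * τ w - q w * T| ≤ d₁) (k : ℕ) (hk : d₁ + d₂ ≤ k)
    (ξ : ℕ → Fin n) (A : Finset ℕ) (hA : Packing L T A) (hN : Near id L q A ξ T d₂) :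
    ∃ B : Finset ℕ, Packing L T B ∧ (∀ w, cnt id L B ξ w ≤ τ w) ∧ T ≤ B.card * L + k := by
  classical
  have h1 : ∀ w : Fin L → Fin n, ∃ s ⊆ A.filter (fun a => word id L ξ a = w),
      s.card = min (cnt id L A ξ w) (τ w) := by
    intro w
    apply Finset.exists_subset_card_eq
    unfold cnt
    exact min_le_left _ _
  choose s hs hsc using h1
  have hsub : Finset.univ.biUnion s ⊆ A := by
    intro a ha
    rw [Finset.mem_biUnion] at ha
    obtain ⟨w, -, ha⟩ := ha
    exact (Finset.mem_filter.1 (hs w ha)).1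
  have hcnt : ∀ w, cnt id L (Finset.univ.biUnion s) ξ w = min (cnt id L A ξ w) (τ w) := by
    intro w
    rw [← hsc w]
    unfold cnt
    congr 1
    ext a
    rw [Finset.mem_filter, Finset.mem_biUnion]
    constructor
    · rintro ⟨⟨w', -, ha⟩, hw⟩
      have := (Finset.mem_filter.1 (hs w' ha)).2
      have hww : w' = w := this.symm.trans hw
      rwa [hww] at ha
    · intro ha
      exact ⟨⟨w, Finset.mem_univ _, ha⟩, (Finset.mem_filter.1 (hs w ha)).2⟩
  refine ⟨Finset.univ.biUnion s, ⟨fun a ha => hA.1 a (hsub ha),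
    fun a ha a' ha' h => hA.2 a (hsub ha) a' (hsub ha') h⟩, ?_, ?_⟩
  · intro w
    rw [hcnt]
    exact min_le_right _ _
  · have h2 : ((Finset.univ.biUnion s).card : ℝ) =
        ∑ w, ((min (cnt id L A ξ w) (τ w) : ℕ) : ℝ) := by
      rw [← sum_cnt (n := n) (L := L) (Finset.univ.biUnion s) ξ]
      push_cast
      refine Finset.sum_congr rfl (fun w _ => ?_)
      rw [hcnt]
      push_cast
      rfl
    have h3 : (T : ℝ) ≤ ((Finset.univ.biUnion s).card : ℝ) * L + k := by
      have h4 : (T : ℝ) = ∑ w, q w * T := by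
        rw [← Finset.sum_mul, hq1, one_mul]
      have h5 : ∀ w, q w * (T : ℝ) ≤ ((min (cnt id L A ξ w) (τ w) : ℕ) : ℝ) * L +
          (|(L : ℝ) * τ w - q w * T| + |(L : ℝ) * cnt id L A ξ w - q w * T|) := by
        intro w
        have a1 := neg_abs_le ((L : ℝ) * τ w - q w * T)
        have a2 := neg_abs_le ((L : ℝ) * cnt id L A ξ w - q w * T)
        have a3 := abs_nonneg ((L : ℝ) * τ w - q w * T)
        have a4 := abs_nonneg ((L : ℝ) * cnt id L A ξ w - q w * T)
        rcases le_total (cnt id L A ξ w) (τ w) with h | h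
        · rw [min_eq_left h]
          linarith
        · rw [min_eq_right h]
          linarith
      calc (T : ℝ) = ∑ w, q w * T := h4
        _ ≤ ∑ w, (((min (cnt id L A ξ w) (τ w) : ℕ) : ℝ) * L +
          (|(L : ℝ) * τ w - q w * T| + |(L : ℝ) * cnt id L A ξ w - q w * T|)) :=
            Finset.sum_le_sum (fun w _ => h5 w)
        _ = (∑ w, ((min (cnt id L A ξ w) (τ w) : ℕ) : ℝ)) * L +
            (∑ w, |(L : ℝ) * τ w - q w * T| +
              ∑ w, |(L : ℝ) * cnt id L A ξ w - q w * T|) := by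
            rw [Finset.sum_add_distrib, Finset.sum_add_distrib, Finset.sum_mul]
        _ ≤ ((Finset.univ.biUnion s).card : ℝ) * L + k := by
            rw [h2]
            have h6 : ∑ w, |(L : ℝ) * cnt id L A ξ w - q w * T| ≤ d₂ := hN
            linarith
    exact_mod_cast h3

open Classical in
/-- The uncovered part of a name. -/
noncomputable def rest {n : ℕ} (L T : ℕ) (A : Finset ℕ) (ξ : ℕ → Fin n) :
    Fin T → Option (Fin n) :=
  fun t => if ∃ a ∈ A, a ≤ (t : ℕ) ∧ (t : ℕ) < a + L then none else some (ξ t)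

theorem rest_card {n L T k : ℕ} {A : Finset ℕ} (hA : Packing L T A) (hk : T ≤ A.card * L + k)
    (ξ : ℕ → Fin n) :
    (Finset.univ.filter (fun i => rest L T A ξ i ≠ none)).card ≤ k := by
  classical
  obtain ⟨h1, h2⟩ := packing_card hA
  have h3 : ((Finset.univ.filter (fun i => rest L T A ξ i ≠ none)).map Fin.valEmbedding) ⊆
      Finset.range T \ (A.biUnion (fun a => Finset.Ico a (a + L))) := by
    intro x hx
    rw [Finset.mem_map] at hx
    obtain ⟨t, ht, rfl⟩ := hx
    rw [Finset.mem_filter] at ht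
    rw [Finset.mem_sdiff]
    refine ⟨Finset.mem_range.2 t.2, ?_⟩
    intro hmem
    rw [Finset.mem_biUnion] at hmem
    obtain ⟨a, ha, hta⟩ := hmem
    rw [Finset.mem_Ico] at hta
    apply ht.2
    unfold rest
    rw [if_pos]
    exact ⟨a, ha, hta.1, hta.2⟩
  have h4 := Finset.card_le_card h3
  rw [Finset.card_map, Finset.card_sdiff_of_subset h2, Finset.card_range, h1] at h4
  omega

theorem leq_reduce (n L T : ℕ) (hL : 0 < L) (q : (Fin L → Fin n) → ℝ) (hq1 : ∑ w, q w = 1)
    (S : Set (Fin n × Fin n)) (hS : ∀ i, (i, i) ∉ S) {ι : Type*} [Fintype ι] [DecidableEq ι]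
    (τ : (Fin L → Fin n) → ℕ) (hτ : ∑ w, τ w = Fintype.card ι) (d₁ d₂ : ℝ)
    (hd₁ : ∑ w, |(L : ℝ) * τ w - q w * T| ≤ d₁) (k : ℕ) (hk : d₁ + d₂ ≤ k) :
    Leq {ξ : ℕ → Fin n | ∃ A, Packing L T A ∧ Near id L q A ξ T d₂} (pw S T)
      {w : ι → (Fin L → Fin n) | ∀ b, (Finset.univ.filter (fun i => w i = b)).card = τ b}
      (fun w w' => ∃ i, ∃ s, (w i s, w' i s) ∈ S)
      (((T + 1) ^ (n ^ L) * (Finset.univ.filter (fun e : Fin T → Option (Fin n) =>
        (Finset.univ.filter (fun i => e i ≠ none)).card ≤ k)).card : ℕ) : ℝ) := by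
  classical
  have hthin : ∀ ξ : ℕ → Fin n, ξ ∈ {ξ : ℕ → Fin n | ∃ A, Packing L T A ∧ Near id L q A ξ T d₂} →
      ∃ B : Finset ℕ, Packing L T B ∧ (∀ w, cnt id L B ξ w ≤ τ w) ∧ T ≤ B.card * L + k := by
    rintro ξ ⟨A, hA, hN⟩
    exact exists_thin q hq1 τ d₁ d₂ hd₁ k hk ξ A hA hN
  choose! B hB hBτ hBk using hthin
  have hfill : ∀ (A : Finset ℕ) (c : (Fin L → Fin n) → ℕ),
      ∃ F : (ℕ → Fin n) → ι → (Fin L → Fin n), (∀ w, c w ≤ τ w) ∧ ∑ w, c w = A.card →
      (∀ ξ, (∀ w, cnt id L A ξ w = c w) →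
        ∀ b, (Finset.univ.filter (fun i => F ξ i = b)).card = τ b) ∧
      (∀ ξ ζ, ∀ a ∈ A, ∃ i, F ξ i = word id L ξ a ∧ F ζ i = word id L ζ a) := by
    intro A c
    by_cases h : (∀ w, c w ≤ τ w) ∧ ∑ w, c w = A.card
    · obtain ⟨F, hF⟩ := exists_fill τ hτ A c h.1 h.2
      exact ⟨F, fun _ => hF⟩
    · exact ⟨fun ξ _ _ => ξ 0, fun h' => absurd h' h⟩
  choose F hF using hfill
  have hF1 := fun A c h => (hF A c h).1
  have hF2 := fun A c h => (hF A c h).2
  have hcT : ∀ ξ ∈ {ξ : ℕ → Fin n | ∃ A, Packing L T A ∧ Near id L q A ξ T d₂}, ∀ w,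
      cnt id L (B ξ) ξ w ≤ T := by
    intro ξ hξ w
    obtain ⟨h1, h2⟩ := packing_card (hB ξ hξ)
    have h3 := Finset.card_le_card h2
    rw [h1, Finset.card_range] at h3
    have h4 : cnt id L (B ξ) ξ w ≤ (B ξ).card := by
      unfold cnt
      exact Finset.card_filter_le _ _
    have h5 : (B ξ).card ≤ (B ξ).card * L := Nat.le_mul_of_pos_right _ hL
    omega
  have hcardI : (((T + 1) ^ (n ^ L) * (Finset.univ.filter (fun e : Fin T → Option (Fin n) =>
        (Finset.univ.filter (fun i => e i ≠ none)).card ≤ k)).card : ℕ) : ℝ) =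
      (((Finset.univ : Finset ((Fin L → Fin n) → Fin (T + 1))) ×ˢ
        (Finset.univ.filter (fun e : Fin T → Option (Fin n) =>
        (Finset.univ.filter (fun i => e i ≠ none)).card ≤ k))).card : ℝ) := by
    rw [Finset.card_product, Finset.card_univ]
    simp [Fintype.card_pi]
  rw [hcardI]
  refine Leq.classes' _ (fun ξ => ((fun w => (⟨min (cnt id L (B ξ) ξ w) T, by omega⟩ :
      Fin (T + 1))), rest L T (B ξ) ξ)) ?_ (fun ξ => F (B ξ) (fun w => cnt id L (B ξ) ξ w) ξ)
      ?_ ?_ ?_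
  · intro ξ hξ
    rw [Finset.mem_product]
    refine ⟨Finset.mem_univ _, ?_⟩
    rw [Finset.mem_filter]
    exact ⟨Finset.mem_univ _, rest_card (hB ξ hξ) (hBk ξ hξ) ξ⟩
  · intro ξ hξ
    exact hF1 _ _ ⟨hBτ ξ hξ, sum_cnt (B ξ) ξ⟩ ξ (fun w => rfl)
  · intro ξ hξ ζ hζ hκ hpw
    obtain ⟨t, htT, ht⟩ := hpw
    rw [Prod.mk.injEq] at hκ
    obtain ⟨hκ1, hκ2⟩ := hκ
    have hcov : ∀ t < T, (∃ a ∈ B ξ, a ≤ t ∧ t < a + L) ↔ (∃ a ∈ B ζ, a ≤ t ∧ t < a + L) := by
      intro t ht
      have h1 := congrFun hκ2 ⟨t, ht⟩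
      unfold rest at h1
      by_cases hc1 : ∃ a ∈ B ξ, a ≤ t ∧ t < a + L <;>
        by_cases hc2 : ∃ a ∈ B ζ, a ≤ t ∧ t < a + L
      · simp only [hc1, hc2]
      · simp only [hc1, hc2, if_true, if_false] at h1
        exact absurd h1.symm (by simp)
      · simp only [hc1, hc2, if_true, if_false] at h1
        exact absurd h1 (by simp)
      · simp only [hc1, hc2]
    have hBB : B ξ = B ζ := packing_eq hL (hB ξ hξ) (hB ζ hζ) hcov
    have hcc : (fun w => cnt id L (B ξ) ξ w) = (fun w => cnt id L (B ζ) ζ w) := by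
      funext w
      have h1 := congrArg Fin.val (congrFun hκ1 w)
      simp only at h1
      rw [min_eq_left (hcT ξ hξ w), min_eq_left (hcT ζ hζ w)] at h1
      exact h1
    have hc1 : ∃ a ∈ B ξ, a ≤ t ∧ t < a + L := by
      by_contra hc1
      have hc2 : ¬ ∃ a ∈ B ζ, a ≤ t ∧ t < a + L := fun h => hc1 ((hcov t htT).2 h)
      have h1 := congrFun hκ2 ⟨t, htT⟩
      unfold rest at h1
      simp only [hc1, hc2, if_false, Option.some.injEq] at h1
      rw [h1] at ht
      exact hS _ ht
    obtain ⟨a, ha, hat, hta⟩ := hc1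
    obtain ⟨i, hi1, hi2⟩ := hF2 (B ξ) (fun w => cnt id L (B ξ) ξ w)
      ⟨hBτ ξ hξ, sum_cnt (B ξ) ξ⟩ ξ ζ a ha
    refine ⟨i, ⟨t - a, by omega⟩, ?_⟩
    have h2 : F (B ζ) (fun w => cnt id L (B ζ) ζ w) ζ = F (B ξ) (fun w => cnt id L (B ξ) ξ w) ζ := by
      rw [hcc, hBB]
    rw [h2, hi1, hi2]
    unfold word
    simp only [id]
    have h3 : a + (t - a) = t := by omega
    rw [h3]
    exact ht
  · intro z _ ⟨i, s, h⟩
    exact hS _ h

end Pool.Agent.Helper97.Weiss
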