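import Pool.Agent.Helper38.Weiss.Api

open Set Filter Topology MeasureTheory Pool.Agent.Helper38.Weiss

namespace Pool.Agent.Helper97.Weiss

theorem fam_typ {X : Type*} {n : ℕ} (P : X → Fin n) (L : ℕ) (q : (Fin L → Fin n) → ℝ)
    (hq : ∀ w, 0 ≤ q w) (hq1 : ∑ w, q w = 1) : Fam (Typ P L q) := by
  classical
  constructor
  · rintro δ b δ' b' T h ξ ⟨A, hA, hN⟩
    exact ⟨A, hA, le_trans hN h⟩
  · rintro δ b b' T T' ξ ⟨A, hA, hN⟩ ⟨A', hA', hN'⟩
    let M : Finset ℕ := A'.image (fun a => T + a)
    have hM : ∀ x, x ∈ M ↔ ∃ a ∈ A', T + a = x := fun x => Finset.mem_image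
    refine ⟨A ∪ M, ⟨?_, ?_⟩, ?_⟩
    · intro a ha
      rcases Finset.mem_union.1 ha with ha | ha
      · have := hA.1 a ha
        omega
      · obtain ⟨x, hx, rfl⟩ := (hM a).1 ha
        have := hA'.1 x hx
        omega
    · intro a ha a' ha' hlt
      rcases Finset.mem_union.1 ha with ha | ha <;> rcases Finset.mem_union.1 ha' with ha' | ha'
      · exact hA.2 a ha a' ha' hlt
      · obtain ⟨x, hx, rfl⟩ := (hM a').1 ha'
        have := hA.1 a ha
        omega
      · obtain ⟨x, hx, rfl⟩ := (hM a).1 ha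
        have := hA.1 a' ha'
        omega
      · obtain ⟨x, hx, rfl⟩ := (hM a).1 ha
        obtain ⟨x', hx', rfl⟩ := (hM a').1 ha'
        have := hA'.2 x hx x' hx' (by omega)
        omega
    · have hcnt : ∀ w, (L : ℝ) * cnt P L (A ∪ M) ξ w =
          (L : ℝ) * cnt P L A ξ w + (L : ℝ) * cnt P L A' (fun t => ξ (T + t)) w := by
        intro w
        rcases Nat.eq_zero_or_pos L with hL | hL
        · subst hL
          simp
        · have hdisj : Disjoint (A.filter (fun a => word P L ξ a = w))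
              (M.filter (fun a => word P L ξ a = w)) := by
            rw [Finset.disjoint_left]
            intro x hx hx'
            rw [Finset.mem_filter] at hx hx'
            obtain ⟨y, hy, rfl⟩ := (hM x).1 hx'.1
            have := hA.1 _ hx.1
            omega
          have h1 : cnt P L (A ∪ M) ξ w = cnt P L A ξ w + cnt P L A' (fun t => ξ (T + t)) w := by
            unfold cnt
            rw [Finset.filter_union, Finset.card_union_of_disjoint hdisj]
            congr 1
            symm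
            refine Finset.card_bij (fun a _ => T + a) ?_ ?_ ?_
            · intro a ha
              rw [Finset.mem_filter] at ha ⊢
              refine ⟨(hM _).2 ⟨a, ha.1, rfl⟩, ?_⟩
              rw [← ha.2]
              funext s
              unfold word
              simp only [add_assoc]
            · intro a _ a' _ h
              exact Nat.add_left_cancel h
            · intro x hx
              rw [Finset.mem_filter] at hx
              obtain ⟨a, ha, rfl⟩ := (hM x).1 hx.1
              refine ⟨a, ?_, rfl⟩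
              rw [Finset.mem_filter]
              refine ⟨ha, ?_⟩
              rw [← hx.2]
              funext s
              unfold word
              simp only [add_assoc]
          rw [h1]
          push_cast
          ring
      unfold Near at hN hN' ⊢
      calc ∑ w, |(L : ℝ) * cnt P L (A ∪ M) ξ w - q w * ((T + T' : ℕ) : ℝ)|
          ≤ ∑ w, (|(L : ℝ) * cnt P L A ξ w - q w * T| +
            |(L : ℝ) * cnt P L A' (fun t => ξ (T + t)) w - q w * T'|) := by
            refine Finset.sum_le_sum (fun w _ => ?_)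
            rw [hcnt w]
            have h2 : (L : ℝ) * cnt P L A ξ w + (L : ℝ) * cnt P L A' (fun t => ξ (T + t)) w -
                q w * ((T + T' : ℕ) : ℝ) = ((L : ℝ) * cnt P L A ξ w - q w * T) +
                ((L : ℝ) * cnt P L A' (fun t => ξ (T + t)) w - q w * T') := by
              push_cast
              ring
            rw [h2]
            exact abs_add_le _ _
        _ = ∑ w, |(L : ℝ) * cnt P L A ξ w - q w * T| +
            ∑ w, |(L : ℝ) * cnt P L A' (fun t => ξ (T + t)) w - q w * T'| :=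
            Finset.sum_add_distrib
        _ ≤ δ * ((T + T' : ℕ) : ℝ) + (b + b') := by
            push_cast
            linarith
  · intro δ b T ξ hδ hb
    refine ⟨∅, ⟨by simp, by simp⟩, ?_⟩
    unfold Near
    have h1 : ∀ w, |(L : ℝ) * cnt P L ∅ ξ w - q w * T| = q w * T := by
      intro w
      have h0 : cnt P L ∅ ξ w = 0 := by simp [cnt]
      rw [h0]
      have : 0 ≤ q w * T := mul_nonneg (hq w) (Nat.cast_nonneg _)
      simp only [Nat.cast_zero, mul_zero, zero_sub, abs_neg]
      exact abs_of_nonneg this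
    rw [Finset.sum_congr rfl (fun w _ => h1 w), ← Finset.sum_mul, hq1, one_mul]
    have : 0 ≤ δ * T := mul_nonneg hδ (Nat.cast_nonneg _)
    linarith
  · rintro δ b T ξ ζ h ⟨A, hA, hN⟩
    refine ⟨A, hA, ?_⟩
    unfold Near at hN ⊢
    have h1 : ∀ w, cnt P L A ζ w = cnt P L A ξ w := by
      intro w
      unfold cnt
      congr 1
      refine Finset.filter_congr (fun a ha => ?_)
      have h2 : word P L ζ a = word P L ξ a := by
        funext s
        unfold word
        have h3 := hA.1 a ha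
        have h4 := s.2
        rw [h (a + s) (by omega)]
      rw [h2]
    simpa only [h1] using hN

theorem dyadic {Z : Type*} [TopologicalSpace Z] {R : Set Z → Set Z → Prop} (n : ℕ) :
    ∀ (c : Urysohns.CU R) (j : ℕ), j < 2 ^ n → ∃ c' : Urysohns.CU R,
      {z | c.lim z < (j : ℝ) / 2 ^ n} ⊆ c'.C ∧ c'.U ⊆ {z | c.lim z ≤ ((j : ℝ) + 1) / 2 ^ n} ∧
      c.C ⊆ c'.C ∧ c'.U ⊆ c.U := by
  induction n with
  | zero =>
    intro c j hj
    have hj0 : j = 0 := by simpa using hj
    subst hj0
    refine ⟨c, ?_, ?_, Subset.rfl, Subset.rfl⟩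
    · intro z hz
      have h1 : c.lim z < ((0 : ℕ) : ℝ) / 2 ^ 0 := hz
      have h2 := c.lim_nonneg z
      norm_num at h1
      linarith
    · intro z _
      have h2 := c.lim_le_one z
      show c.lim z ≤ (((0 : ℕ) : ℝ) + 1) / 2 ^ 0
      norm_num
      exact h2
  | succ n ih =>
    intro c j hj
    have hpos : (0 : ℝ) < 2 ^ n := by positivity
    have hmid : ∀ z, c.lim z = (c.left.lim z + c.right.lim z) / 2 := by
      intro z
      rw [c.lim_eq_midpoint, midpoint_eq_smul_add]
      simp only [invOf_eq_inv, smul_eq_mul]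
      ring
    by_cases hj' : j < 2 ^ n
    · obtain ⟨c', h1, h2, h3, h4⟩ := ih c.left j hj'
      refine ⟨c', ?_, ?_, h3, h4.trans c.left_U_subset⟩
      · intro z hz
        apply h1
        have h5 : c.lim z < (j : ℝ) / 2 ^ (n + 1) := hz
        rw [hmid, lt_div_iff₀ (by positivity), pow_succ] at h5
        show c.left.lim z < (j : ℝ) / 2 ^ n
        rw [lt_div_iff₀ hpos]
        have h6 := c.right.lim_nonneg z
        nlinarith
      · intro z hz
        have h5 : c.left.lim z ≤ ((j : ℝ) + 1) / 2 ^ n := h2 hz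
        have h6 : c.right.lim z = 0 :=
          c.right.lim_of_mem_C z (c.left_U_subset_right_C (h4 hz))
        show c.lim z ≤ ((j : ℝ) + 1) / 2 ^ (n + 1)
        rw [hmid, h6, le_div_iff₀ (by positivity), pow_succ]
        rw [le_div_iff₀ hpos] at h5
        nlinarith
    · have hj'' : 2 ^ n ≤ j := not_lt.1 hj'
      have hcast : ((j - 2 ^ n : ℕ) : ℝ) = (j : ℝ) - 2 ^ n := by
        rw [Nat.cast_sub hj'']
        push_cast
        rfl
      obtain ⟨c', h1, h2, h3, h4⟩ := ih c.right (j - 2 ^ n) (by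
        rw [pow_succ] at hj
        omega)
      rw [hcast] at h1 h2
      refine ⟨c', ?_, ?_, c.subset_right_C.trans h3, h4⟩
      · intro z hz
        by_cases hzl : z ∈ c.left.U
        · exact h3 (c.left_U_subset_right_C hzl)
        · apply h1
          have h5 : c.lim z < (j : ℝ) / 2 ^ (n + 1) := hz
          have h6 : c.left.lim z = 1 := c.left.lim_of_notMem_U z hzl
          rw [hmid, h6, lt_div_iff₀ (by positivity), pow_succ] at h5
          show c.right.lim z < ((j : ℝ) - 2 ^ n) / 2 ^ n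
          rw [lt_div_iff₀ hpos]
          nlinarith
      · intro z hz
        have h5 : c.right.lim z ≤ ((j : ℝ) - 2 ^ n + 1) / 2 ^ n := h2 hz
        have h6 := c.left.lim_le_one z
        show c.lim z ≤ ((j : ℝ) + 1) / 2 ^ (n + 1)
        rw [hmid, le_div_iff₀ (by positivity), pow_succ]
        rw [le_div_iff₀ hpos] at h5
        nlinarith

theorem exists_threshold {Z : Type*} [TopologicalSpace Z] (R : Set Z → Set Z → Prop)
    (hR : ∀ {c u : Set Z}, IsClosed c → R c u → IsOpen u → c ⊆ u →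
      ∃ v : Set Z, IsOpen v ∧ c ⊆ v ∧ closure v ⊆ u ∧ R c v ∧ R (closure v) u)
    {C U : Set Z} (hC : IsClosed C) (hU : IsOpen U) (hCU : C ⊆ U) (hRCU : R C U) :
    ∃ f : Z → ℝ, Continuous f ∧ (∀ z, 0 ≤ f z) ∧ (∀ z, f z ≤ 1) ∧ (∀ z ∈ C, f z = 0) ∧
      (∀ z ∉ U, f z = 1) ∧ ∀ s t : ℝ, 0 < s → s < t → t < 1 → ∃ C' U' : Set Z, IsClosed C' ∧
        IsOpen U' ∧ R C' U' ∧ {z | f z < s} ⊆ C' ∧ C' ⊆ U' ∧ U' ⊆ {z | f z ≤ t} := by
  let c : Urysohns.CU R :=
    { C := C
      U := U
      P_C_U := hRCU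
      closed_C := hC
      open_U := hU
      subset := hCU
      hP := hR }
  refine ⟨c.lim, c.continuous_lim, c.lim_nonneg, c.lim_le_one, fun z hz => c.lim_of_mem_C z hz,
    fun z hz => c.lim_of_notMem_U z hz, ?_⟩
  intro s t hs hst ht
  obtain ⟨n, hn⟩ := exists_pow_lt_of_lt_one (show (0 : ℝ) < (t - s) / 2 by linarith)
    (show (1 / 2 : ℝ) < 1 by norm_num)
  have hpos : (0 : ℝ) < 2 ^ n := by positivity
  have hn' : 2 < (t - s) * 2 ^ n := by
    rw [div_pow, one_pow, div_lt_iff₀ hpos] at hn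
    linarith
  have hsn : 0 ≤ s * 2 ^ n := by positivity
  have h1 : s * 2 ^ n ≤ (⌈s * 2 ^ n⌉₊ : ℝ) := Nat.le_ceil _
  have h2 : (⌈s * 2 ^ n⌉₊ : ℝ) < s * 2 ^ n + 1 := Nat.ceil_lt_add_one hsn
  have h3 : ((⌈s * 2 ^ n⌉₊ : ℝ) + 1) < t * 2 ^ n := by nlinarith
  have h4 : t * 2 ^ n < 2 ^ n := by nlinarith
  have h5 : ⌈s * 2 ^ n⌉₊ < 2 ^ n := by
    have h6 : (⌈s * 2 ^ n⌉₊ : ℝ) < 2 ^ n := by linarith
    exact_mod_cast h6
  obtain ⟨c', h7, h8, -, -⟩ := dyadic n c ⌈s * 2 ^ n⌉₊ h5
  refine ⟨c'.C, c'.U, c'.closed_C, c'.open_U, c'.P_C_U, ?_, c'.subset, ?_⟩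
  · refine Subset.trans ?_ h7
    intro z hz
    have h9 : c.lim z < s := hz
    show c.lim z < (⌈s * 2 ^ n⌉₊ : ℝ) / 2 ^ n
    rw [lt_div_iff₀ hpos]
    nlinarith
  · refine h8.trans ?_
    intro z hz
    have h9 : c.lim z ≤ ((⌈s * 2 ^ n⌉₊ : ℝ) + 1) / 2 ^ n := hz
    show c.lim z ≤ t
    rw [le_div_iff₀ hpos] at h9
    nlinarith

end Pool.Agent.Helper97.Weiss
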